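import Pool.Agent.H655.GE.Meas

/-! Metrics whose set of distances has gaps at all scales. -/

namespace Pool.Agent.H655.ND

open Set Pool.Agent.H655.UR
open Pool.Agent.H655.GE (Rel Cor gh_zero ev_meas ev_cont)
open scoped ENNReal

/-- The set of distances of `f` has gaps of a size `δ` depending only on `ε` in all intervals of
length `ε`. -/
def Gappy (f : Met) : Prop :=
  ∀ ε : ℝ, 0 < ε → ∃ δ : ℝ, 0 < δ ∧ ∀ x : ℝ, 0 ≤ x → ∃ y, x ≤ y ∧ y + δ ≤ x + ε ∧
    ∀ i j, f.1 i j ∉ Ioo y (y + δ)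

/-- Cut points. -/
def Gap (f : Met) (N c : ℕ) : Prop :=
  ∀ i j, 1 / (3 * ((N : ℝ) + 1)) ≤ |f.1 i j - (c : ℝ) / ((N : ℝ) + 1)|

/-- The relations above the cut points. -/
def Ab (f : Met) (N c i j : ℕ) : Prop := Gap f N c ∧ (c : ℝ) / ((N : ℝ) + 1) < f.1 i j

/-- The relations of the structure of a metric. -/
def Rl (f : Met) (k : ℕ) (p q : ℕ × II) : Prop :=
  (k % 2 = 0 ∧ p.1 = k / 2) ∨ (k % 2 = 1 ∧ p.1 = q.1 ∧ Ab f p.1 (k / 2) p.2.1 q.2.1)

open Classical in
/-- The structure of a metric: a sequence of binary relations on `ℕ`. -/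
noncomputable def str (f : Met) : ℕ → ℕ → ℕ → Bool := fun k n m =>
  decide (Rl f k ((Denumerable.eqv (ℕ × II)).symm n) ((Denumerable.eqv (ℕ × II)).symm m))

theorem gap_of {f g : Met} (h : rhoGH f g = 0) {N c : ℕ} (hG : Gap f N c) : Gap g N c := by
  intro i j
  apply le_of_forall_pos_le_add
  intro κ hκ
  obtain ⟨σ, hσ⟩ := perm_of_gh (f := f) (g := g) (δ := κ / 2) (by
    rw [h]
    exact ENNReal.ofReal_pos.2 (by linarith))
  have h1 := hσ (σ.symm (i, 0)) (σ.symm (j, 0))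
  rw [Equiv.apply_symm_apply, Equiv.apply_symm_apply] at h1
  have h2 := hG (σ.symm (i, 0)).1 (σ.symm (j, 0)).1
  have h3 := abs_sub_le (f.1 (σ.symm (i, 0)).1 (σ.symm (j, 0)).1) (g.1 i j)
    ((c : ℝ) / ((N : ℝ) + 1))
  simp only at h1
  linarith

theorem rho_symm0 {f g : Met} (h : rhoGH f g = 0) : rhoGH g f = 0 := by
  rw [gh_zero] at h ⊢
  exact fun ε hε => (h ε hε).symm

theorem ab_of {f g : Met} (h : rhoGH f g = 0) {N c i j i' j' : ℕ}
    (hd : |f.1 i j - g.1 i' j'| ≤ 1 / (6 * ((N : ℝ) + 1))) (hA : Ab f N c i j) :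
    Ab g N c i' j' := by
  refine ⟨gap_of h hA.1, ?_⟩
  have h1 := hA.1 i j
  rw [abs_of_pos (by linarith [hA.2])] at h1
  have h2 := (abs_le.1 hd).2
  have h3 : 1 / (6 * ((N : ℝ) + 1)) < 1 / (3 * ((N : ℝ) + 1)) := by
    apply one_div_lt_one_div_of_lt (by positivity)
    have : (0 : ℝ) < (N : ℝ) + 1 := by positivity
    linarith
  linarith

theorem str_fwd {f g : Met} (h : rhoGH f g = 0) :
    ∃ σ : Equiv.Perm ℕ, ∀ k n m, str g k (σ n) (σ m) = str f k n m := by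
  have hN : ∀ N : ℕ, ∃ σ : Equiv.Perm II, ∀ a b : II,
      |f.1 a.1 b.1 - g.1 (σ a).1 (σ b).1| ≤ 1 / (6 * ((N : ℝ) + 1)) := by
    intro N
    obtain ⟨σ, hσ⟩ := perm_of_gh (f := f) (g := g) (δ := 1 / (12 * ((N : ℝ) + 1))) (by
      rw [h]
      exact ENNReal.ofReal_pos.2 (by positivity))
    refine ⟨σ, fun a b => (hσ a b).trans (le_of_eq ?_)⟩
    field_simp
    norm_num
  choose s hs using hN
  let τ : Equiv.Perm (ℕ × II) := Equiv.prodShear (Equiv.refl ℕ) s
  have hτ : ∀ p, τ p = (p.1, s p.1 p.2) := fun p => rfl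
  let e := Denumerable.eqv (ℕ × II)
  refine ⟨(e.symm.trans τ).trans e, fun k n m => ?_⟩
  unfold str
  have e1 : ∀ n, (Denumerable.eqv (ℕ × II)).symm (((e.symm.trans τ).trans e) n) = τ (e.symm n) := by
    intro n
    show e.symm (e (τ (e.symm n))) = _
    rw [Equiv.symm_apply_apply]
  rw [e1, e1]
  congr 1
  apply propext
  generalize e.symm n = p
  generalize e.symm m = q
  rw [hτ, hτ]
  unfold Rl
  simp only
  apply or_congr Iff.rfl
  constructor
  · rintro ⟨h1, h2, h3⟩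
    refine ⟨h1, h2, ?_⟩
    rw [← h2] at h3
    exact ab_of (rho_symm0 h) (by rw [abs_sub_comm]; exact hs p.1 p.2 q.2) h3
  · rintro ⟨h1, h2, h3⟩
    refine ⟨h1, h2, ?_⟩
    rw [← h2]
    exact ab_of h (hs p.1 p.2 q.2) h3

theorem cut {f : Met} {ε δ : ℝ} (hδ : 0 < δ)
    (hf : ∀ x : ℝ, 0 ≤ x → ∃ y, x ≤ y ∧ y + δ ≤ x + ε ∧ ∀ i j, f.1 i j ∉ Ioo y (y + δ))
    {N : ℕ} (hN : 3 / ((N : ℝ) + 1) ≤ δ) {i j : ℕ} (hv : ε < f.1 i j) :
    ∃ c, Ab f N c i j ∧ f.1 i j - ε ≤ (c : ℝ) / ((N : ℝ) + 1) := by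
  obtain ⟨y, h1, h2, h3⟩ := hf (f.1 i j - ε) (by linarith)
  have hN0 : (0 : ℝ) < (N : ℝ) + 1 := by positivity
  have hu : 1 / ((N : ℝ) + 1) ≤ δ / 3 := by
    have : 3 / ((N : ℝ) + 1) = 3 * (1 / ((N : ℝ) + 1)) := by ring
    linarith
  have hu0 : 0 < 1 / ((N : ℝ) + 1) := by positivity
  have hu3 : 1 / (3 * ((N : ℝ) + 1)) = (1 / ((N : ℝ) + 1)) / 3 := by
    field_simp
  have hy : 0 ≤ y := by linarith
  set c : ℕ := ⌊(y + δ / 2) * ((N : ℝ) + 1)⌋₊ with hc
  have c1 : (c : ℝ) ≤ (y + δ / 2) * ((N : ℝ) + 1) := Nat.floor_le (by positivity)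
  have c2 : (y + δ / 2) * ((N : ℝ) + 1) < c + 1 := Nat.lt_floor_add_one _
  have c3 : (c : ℝ) / ((N : ℝ) + 1) ≤ y + δ / 2 := by
    rw [div_le_iff₀ hN0]
    exact c1
  have c4 : y + δ / 2 < (c : ℝ) / ((N : ℝ) + 1) + 1 / ((N : ℝ) + 1) := by
    rw [← add_div, lt_div_iff₀ hN0]
    exact c2
  refine ⟨c, ⟨?_, by linarith⟩, by linarith⟩
  intro i' j'
  by_contra hlt
  push Not at hlt
  rw [hu3, abs_lt] at hlt
  exact h3 i' j' ⟨by linarith [hlt.1], by linarith [hlt.2]⟩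

theorem str_bwd {f g : Met} (hf : Gappy f) (hg : Gappy g) (σ : Equiv.Perm ℕ)
    (hσ : ∀ k n m, str g k (σ n) (σ m) = str f k n m) : rhoGH f g = 0 := by
  rw [gh_zero]
  intro ε hε
  obtain ⟨δ1, h1, h1'⟩ := hf ε hε
  obtain ⟨δ2, h2, h2'⟩ := hg ε hε
  obtain ⟨N, hN⟩ := exists_nat_one_div_lt (show 0 < min δ1 δ2 / 3 by
    have := lt_min h1 h2
    linarith)
  have hN1 : 3 / ((N : ℝ) + 1) ≤ δ1 := by
    have e : 3 / ((N : ℝ) + 1) = 3 * (1 / ((N : ℝ) + 1)) := by ring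
    have := min_le_left δ1 δ2
    linarith
  have hN2 : 3 / ((N : ℝ) + 1) ≤ δ2 := by
    have e : 3 / ((N : ℝ) + 1) = 3 * (1 / ((N : ℝ) + 1)) := by ring
    have := min_le_right δ1 δ2
    linarith
  let e := Denumerable.eqv (ℕ × II)
  let τ : Equiv.Perm (ℕ × II) := (e.trans σ).trans e.symm
  have key : ∀ k p q, Rl g k (τ p) (τ q) ↔ Rl f k p q := by
    intro k p q
    have := hσ k (e p) (e q)
    unfold str at this
    rw [decide_eq_decide] at this
    have e1 : ∀ p, (Denumerable.eqv (ℕ × II)).symm (σ (e p)) = τ p := fun p => rfl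
    have e2 : ∀ p, (Denumerable.eqv (ℕ × II)).symm (e p) = p := fun p => e.symm_apply_apply p
    rw [e1, e1, e2, e2] at this
    exact this
  have lev : ∀ p, (τ p).1 = p.1 := by
    intro p
    have := (key (2 * p.1) p p).2 (Or.inl ⟨by omega, by omega⟩)
    rcases this with h | h
    · have := h.2
      omega
    · have := h.1
      omega
  have ab : ∀ (c : ℕ) (a b : II), Ab g N c (τ (N, a)).2.1 (τ (N, b)).2.1 ↔ Ab f N c a.1 b.1 := by
    intro c a b
    have hk := key (2 * c + 1) (N, a) (N, b)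
    have l1 := lev (N, a)
    have l2 := lev (N, b)
    simp only at l1 l2
    have e3 : (2 * c + 1) / 2 = c := by omega
    unfold Rl at hk
    rw [l1, l2, e3] at hk
    have e4 : (2 * c + 1) % 2 = 1 := by omega
    simpa [e4] using hk
  refine ⟨fun n m => ∃ a : II, a.1 = n ∧ (τ (N, a)).2.1 = m, ⟨?_, ?_, ?_⟩, List.Forall₂.nil⟩
  · intro n
    exact ⟨_, (n, 0), rfl, rfl⟩
  · intro m
    refine ⟨_, (τ.symm (N, (m, 0))).2, rfl, ?_⟩
    have l := lev (τ.symm (N, (m, 0)))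
    rw [Equiv.apply_symm_apply] at l
    simp only at l
    have e5 : (N, (τ.symm (N, (m, 0))).2) = τ.symm (N, (m, 0)) := Prod.ext l rfl
    rw [e5, Equiv.apply_symm_apply]
  · rintro n m n' m' ⟨a, rfl, rfl⟩ ⟨b, rfl, rfl⟩
    rw [abs_le]
    constructor
    · by_cases hv : ε < g.1 (τ (N, a)).2.1 (τ (N, b)).2.1
      · obtain ⟨c, hc1, hc2⟩ := cut h2 h2' hN2 hv
        have := ((ab c a b).1 hc1).2
        linarith
      · have := f.nonneg a.1 b.1
        linarith
    · by_cases hv : ε < f.1 a.1 b.1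
      · obtain ⟨c, hc1, hc2⟩ := cut h1 h1' hN1 hv
        have := ((ab c a b).2 hc1).2
        linarith
      · have := g.nonneg (τ (N, a)).2.1 (τ (N, b)).2.1
        linarith

theorem str_meas : Measurable str := by
  refine measurable_pi_lambda _ fun k => measurable_pi_lambda _ fun n =>
    measurable_pi_lambda _ fun m => ?_
  apply measurable_to_bool
  generalize hp : (Denumerable.eqv (ℕ × II)).symm n = p
  generalize hq : (Denumerable.eqv (ℕ × II)).symm m = q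
  have e : (fun f : Met => str f k n m) ⁻¹' {true} = {f | Rl f k p q} := by
    ext f
    simp [str, hp, hq]
  rw [e]
  have hG : ∀ N c : ℕ, Measurable fun f : Met => Gap f N c := by
    intro N c
    unfold Gap
    refine Measurable.forall fun i => Measurable.forall fun j => ?_
    have h1 := (ev_meas (borel Met) le_rfl i j).sub_const ((c : ℝ) / ((N : ℝ) + 1))
    exact measurableSet_setOf.1 (measurableSet_le measurable_const
      ((continuous_abs.measurable).comp h1))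
  refine measurableSet_setOf.2 ?_
  unfold Rl Ab
  refine Measurable.or measurable_const (Measurable.and measurable_const
    (Measurable.and measurable_const (Measurable.and (hG _ _) ?_)))
  exact measurableSet_setOf.1 (measurableSet_lt measurable_const (ev_meas (borel Met) le_rfl _ _))

/-- Bounded metrics with a nowhere dense set of distances. -/
theorem gappy_of {f : Met} {B : ℝ} (hB : ∀ i j, f.1 i j ≤ B)
    (hD : IsNowhereDense (range fun p : ℕ × ℕ => f.1 p.1 p.2)) : Gappy f := by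
  intro ε hε
  have hB0 : 0 ≤ B := (f.nonneg 0 0).trans (hB 0 0)
  have key : ∀ k : ℕ, ∃ y δ : ℝ, 0 < δ ∧ k * (ε / 2) ≤ y ∧ y + δ ≤ k * (ε / 2) + ε / 2 ∧
      ∀ i j, f.1 i j ∉ Ioo y (y + δ) := by
    intro k
    have h1 : ¬ Ioo (k * (ε / 2)) (k * (ε / 2) + ε / 2) ⊆
        closure (range fun p : ℕ × ℕ => f.1 p.1 p.2) := by
      intro hs
      have h2 := interior_maximal hs isOpen_Ioo
      rw [hD] at h2
      exact h2 (show (k * (ε / 2) + ε / 4 : ℝ) ∈ _ from ⟨by linarith, by linarith⟩)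
    rw [not_subset] at h1
    obtain ⟨z, hz1, hz2⟩ := h1
    have h3 : (Ioo (k * (ε / 2)) (k * (ε / 2) + ε / 2) ∩
        (closure (range fun p : ℕ × ℕ => f.1 p.1 p.2))ᶜ) ∈ nhds z :=
      Filter.inter_mem (isOpen_Ioo.mem_nhds hz1) (isClosed_closure.isOpen_compl.mem_nhds hz2)
    obtain ⟨r, hr, hr2⟩ := Metric.mem_nhds_iff.1 h3
    have h4 : ∀ w, w ∈ Ioo z (z + r) → w ∈ Metric.ball z r := by
      intro w hw
      rw [Metric.mem_ball, Real.dist_eq, abs_of_pos (by linarith [hw.1])]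
      linarith [hw.2]
    refine ⟨z, r, hr, hz1.1.le, ?_, ?_⟩
    · by_contra hlt
      push Not at hlt
      have h5 : k * (ε / 2) + ε / 2 ∈ Metric.ball z r := by
        rw [Metric.mem_ball, Real.dist_eq, abs_of_pos (by linarith [hz1.2])]
        linarith
      exact lt_irrefl _ (hr2 h5).1.2
    · intro i j hij
      exact (hr2 (h4 _ hij)).2 (subset_closure ⟨(i, j), rfl⟩)
  choose y δ k1 k2 k3 k4 using key
  obtain ⟨K, hK⟩ := exists_nat_gt (B / (ε / 2))
  have hK' : B < K * (ε / 2) := by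
    rw [div_lt_iff₀ (by linarith)] at hK
    exact hK
  obtain ⟨d, hd0, hd1⟩ : ∃ d : ℝ, 0 < d ∧ ∀ k ≤ K, d ≤ δ k := by
    have hne : (Finset.range (K + 1)).Nonempty := ⟨0, by simp⟩
    refine ⟨(Finset.range (K + 1)).inf' hne δ, ?_, ?_⟩
    · rw [Finset.lt_inf'_iff]
      exact fun k _ => k1 k
    · intro k hk
      exact Finset.inf'_le _ (by simp; omega)
  refine ⟨min d (ε / 2), lt_min hd0 (by linarith), fun x hx => ?_⟩
  have m1 := min_le_left d (ε / 2)
  have m2 := min_le_right d (ε / 2)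
  set k : ℕ := ⌈x / (ε / 2)⌉₊ with hk
  have c1 : x ≤ k * (ε / 2) := by
    have := Nat.le_ceil (x / (ε / 2))
    rw [div_le_iff₀ (by linarith)] at this
    exact this
  have c2 : k * (ε / 2) < x + ε / 2 := by
    have := Nat.ceil_lt_add_one (show 0 ≤ x / (ε / 2) by positivity)
    have h5 : (k : ℝ) * (ε / 2) < (x / (ε / 2) + 1) * (ε / 2) :=
      mul_lt_mul_of_pos_right this (by linarith)
    have h6 : (x / (ε / 2) + 1) * (ε / 2) = x + ε / 2 := by field_simp
    linarith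
  by_cases hkK : k ≤ K
  · refine ⟨y k, c1.trans (k2 k), ?_, ?_⟩
    · have := hd1 k hkK
      have := k3 k
      linarith
    · intro i j hij
      have := hd1 k hkK
      exact k4 k i j ⟨hij.1, by linarith [hij.2]⟩
  · push Not at hkK
    refine ⟨k * (ε / 2), c1, by linarith, ?_⟩
    intro i j hij
    have h7 : (K : ℝ) ≤ k := by exact_mod_cast hkK.le
    have h8 : (K : ℝ) * (ε / 2) ≤ k * (ε / 2) := mul_le_mul_of_nonneg_right h7 (by linarith)
    linarith [hij.1, hB i j]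

end Pool.Agent.H655.ND
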